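import Pool.Agent.N718.GC.Stm
import Pool.Agent.N477.DC.MAINA

/-!
# Project GC (helper718), part MAINAG (worker: helper901)

The proof is modelled on part MAINA of project DC (helper477).
-/

set_option autoImplicit false

namespace Pool.Agent.N901.GC

open Pool.Agent.N718.DC Pool.Agent.N718.GC Finset

noncomputable section

variable {r m : ℕ} {e : Fin m → ℕ}

open Classical in
/-- the exceptional families in a class -/
def BB (E : Dat r m) (M : ℕ) (γ : (i : Fin m) → Fin (e i + 2) → ℤ) (s : Fin m → ℤ)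
    (a₀ a₁ : ℤ) (α β : ℝ) (H : ℕ) : Finset ((i : Fin m) → Fin (e i + 2) → ℤ) :=
  (BXI e H).filter (fun c => (∀ i j, (M : ℤ) ∣ c i j - γ i j) ∧
      (∀ i, ∀ z : ℝ, α < z → z < β → 0 < (s i : ℝ) * fmv (c i) 1 z) ∧
      ¬ ∃ x y : ℤ, 0 < x ∧ (M : ℤ) ∣ x - a₀ ∧ (M : ℤ) ∣ y - a₁ ∧ α * x < y ∧ (y : ℝ) < β * x ∧
        PG E c (x : ℚ) (y : ℚ))

theorem card_Gam (e : Fin m → ℕ) (M : ℕ) :
    (Fintype.piFinset (fun k : Fin m =>
      Fintype.piFinset (fun _ : Fin (e k + 2) => Ico (0 : ℤ) M))).card = M ^ ncI e := by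
  simp only [Fintype.card_piFinset, prod_const, Int.card_Ico, sub_zero, Int.toNat_natCast,
    card_univ, Fintype.card_fin]
  rw [prod_pow_eq_pow_sum]
  rfl

theorem prod_ne (E : Dat r m) (hE : E.Ok e) : ∏ j, (E.a j * E.b j) ≠ 0 := by
  rw [prod_ne_zero_iff]
  intro j _
  refine mul_ne_zero ?_ (hE.hb j)
  intro h
  apply hE.ha {j} (singleton_nonempty j)
  rw [prod_singleton, h]
  exact ⟨0, by norm_num⟩

theorem a_ne (E : Dat r m) (hE : E.Ok e) (j : Fin r) : E.a j ≠ 0 := by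
  intro h
  apply hE.ha {j} (singleton_nonempty j)
  rw [prod_singleton, h]
  exact ⟨0, by norm_num⟩

/-- the signs at a real point -/
theorem signs (E : Dat r m) (hE : E.Ok e) (h8 : S_LOCN) (c : (i : Fin m) → Fin (e i + 2) → ℤ)
    (z : ℝ) (h : PG E c (1 : ℝ) z) : ∃ s : Fin m → ℤ, SG E s ∧
      ∀ i, 0 < (s i : ℝ) * fmv (c i) 1 z := by
  classical
  refine ⟨fun i => if 0 < fmv (c i) (1 : ℝ) z then 1 else -1, ⟨fun i => ?_, fun j => ?_⟩,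
    fun i => ?_⟩
  · by_cases h1 : 0 < fmv (c i) (1 : ℝ) z
    · left
      simp [h1]
    · right
      simp [h1]
  · have hpos : ∀ i, 0 < ((if 0 < fmv (c i) (1 : ℝ) z then 1 else -1 : ℤ) : ℝ) *
        fmv (c i) (1 : ℝ) z := by
      intro i
      by_cases h1 : 0 < fmv (c i) (1 : ℝ) z
      · rw [if_pos h1]
        simpa using h1
      · rw [if_neg h1]
        have h2 : fmv (c i) (1 : ℝ) z < 0 := lt_of_le_of_ne (not_lt.1 h1) (h.1 i)
        push_cast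
        linarith
    have h1 := h.2 j
    have hr0 : rhs E c j (1 : ℝ) z ≠ 0 := by
      unfold rhs
      refine mul_ne_zero ?_ (prod_ne_zero_iff.2 fun i _ => h.1 i)
      exact_mod_cast hE.hb j
    have ha0 : (E.a j : ℝ) ≠ 0 := by exact_mod_cast a_ne E hE j
    rcases (h8.2.2.2 (E.a j : ℝ) _ ha0 hr0).1 h1 with h2 | h2
    · left
      exact_mod_cast h2
    · right
      have h3 : 0 < ∏ i ∈ E.I j, (((if 0 < fmv (c i) (1 : ℝ) z then 1 else -1 : ℤ) : ℝ) *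
        fmv (c i) (1 : ℝ) z) := prod_pos fun i _ => hpos i
      rw [prod_mul_distrib] at h3
      unfold rhs at h2
      have h4 : 0 < ((E.b j : ℝ) * ∏ i ∈ E.I j, ((if 0 < fmv (c i) (1 : ℝ) z then 1 else -1 : ℤ) : ℝ)) := by
        by_contra hcon
        rw [not_lt] at hcon
        have h5 : ((E.b j : ℝ) * ∏ i ∈ E.I j, ((if 0 < fmv (c i) (1 : ℝ) z then 1 else -1 : ℤ) : ℝ)) *
          ((∏ i ∈ E.I j, ((if 0 < fmv (c i) (1 : ℝ) z then 1 else -1 : ℤ) : ℝ)) *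
            ∏ i ∈ E.I j, fmv (c i) (1 : ℝ) z) ≤ 0 := mul_nonpos_of_nonpos_of_nonneg hcon h3.le
        have h6 : (∏ i ∈ E.I j, ((if 0 < fmv (c i) (1 : ℝ) z then 1 else -1 : ℤ) : ℝ)) *
          (∏ i ∈ E.I j, ((if 0 < fmv (c i) (1 : ℝ) z then 1 else -1 : ℤ) : ℝ)) = 1 := by
          rw [← prod_mul_distrib]
          refine prod_eq_one fun i _ => ?_
          split_ifs <;> norm_num
        have h7 : ((E.b j : ℝ) * ∏ i ∈ E.I j, ((if 0 < fmv (c i) (1 : ℝ) z then 1 else -1 : ℤ) : ℝ)) *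
          ((∏ i ∈ E.I j, ((if 0 < fmv (c i) (1 : ℝ) z then 1 else -1 : ℤ) : ℝ)) *
            ∏ i ∈ E.I j, fmv (c i) (1 : ℝ) z) = (E.b j : ℝ) * ∏ i ∈ E.I j, fmv (c i) (1 : ℝ) z := by
          linear_combination ((E.b j : ℝ) * ∏ i ∈ E.I j, fmv (c i) (1 : ℝ) z) * h6
        linarith
      have h5 : ((E.b j * ∏ i ∈ E.I j, (if 0 < fmv (c i) (1 : ℝ) z then 1 else -1 : ℤ) : ℤ) : ℝ) =
        ((E.b j : ℝ) * ∏ i ∈ E.I j, ((if 0 < fmv (c i) (1 : ℝ) z then 1 else -1 : ℤ) : ℝ)) := by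
        rw [Int.cast_mul, Int.cast_prod]
      rw [← h5] at h4
      exact_mod_cast h4
  · by_cases h1 : 0 < fmv (c i) (1 : ℝ) z
    · simp only [h1, if_true]
      simpa using h1
    · simp only [h1, if_false]
      have h2 : fmv (c i) (1 : ℝ) z < 0 := lt_of_le_of_ne (not_lt.1 h1) (h.1 i)
      push_cast
      linarith

set_option maxHeartbeats 4000000 in
theorem mainag_ (h1 : S_CLSG) (h2 : Pool.Agent.N718.DC.S_PADC) (h3 : S_REALS) (h4 : S_GLUEG)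
    (h5 : S_LCI) (h6 : S_RESW) (h7 : S_TRIV) (h8 : S_LOCN) : S_MAINAG := by
  classical
  intro r m E e hm hE U hU S N η hη
  have hi : ∀ j : Fin r, ∃ i : Fin m, (E.I j).Nonempty → i ∈ E.I j := by
    intro j
    by_cases hj : (E.I j).Nonempty
    · obtain ⟨i, hi⟩ := hj
      exact ⟨i, fun _ => hi⟩
    · exact ⟨⟨0, hm⟩, fun h => absurd h hj⟩
  choose i₀ hi₀ using hi
  obtain ⟨Z, HR, hZ, hR⟩ := h3 (Fin m) e U hU (η / 8) (by positivity)
  obtain ⟨C, hC0, hC⟩ := h1 r m E e hE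
  obtain ⟨Wt, hWt⟩ := h7 m e (η / 8) (by positivity)
  obtain ⟨Q, hQ⟩ : ∃ Q : ℕ, Q = ∏ p ∈ S, (p : ℕ) ^ N := ⟨_, rfl⟩
  have hQ0 : 0 < Q := by
    rw [hQ]
    exact prod_pos fun p _ => pow_pos p.2.pos N
  obtain ⟨Sg, hSg⟩ : ∃ Sg : Finset (Fin m → ℤ),
    Sg = Fintype.piFinset (fun _ => ({1, -1} : Finset ℤ)) := ⟨_, rfl⟩
  obtain ⟨Rs, hRs⟩ : ∃ Rs : Finset (ℤ × ℤ), Rs = Ico (0 : ℤ) Q ×ˢ Ico (0 : ℤ) Q := ⟨_, rfl⟩
  -- the choice of `W`
  obtain ⟨Kc, hKc⟩ : ∃ Kc : ℝ, Kc = C * (Rs.card * Z.card * Sg.card) := ⟨_, rfl⟩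
  have hKc0 : 0 ≤ Kc := by rw [hKc]; positivity
  obtain ⟨W, hW2, hWS, hWK, hWab, hWWt⟩ : ∃ W : ℕ, 2 ≤ W ∧ (∀ p ∈ S, (p : ℕ) ≤ W) ∧
      Kc / W ≤ η / 8 ∧ (∏ j, (E.a j * E.b j)).natAbs ≤ W ∧ Wt ≤ W := by
    obtain ⟨W₁, hW₁⟩ := exists_nat_gt (8 * Kc / η)
    refine ⟨2 + S.sup (fun p => (p : ℕ)) + (∏ j, (E.a j * E.b j)).natAbs + Wt + W₁, by omega,
      ?_, ?_, by omega, by omega⟩
    · intro p hp
      have := Finset.le_sup (f := fun p : Nat.Primes => (p : ℕ)) hp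
      omega
    · have h5 : (8 * Kc / η) < ((2 + S.sup (fun p : Nat.Primes => (p : ℕ)) +
          (∏ j, (E.a j * E.b j)).natAbs + Wt + W₁ : ℕ) : ℝ) := by
        refine hW₁.trans_le ?_
        exact_mod_cast Nat.le_add_left _ _
      have h6 : (0 : ℝ) < ((2 + S.sup (fun p : Nat.Primes => (p : ℕ)) +
          (∏ j, (E.a j * E.b j)).natAbs + Wt + W₁ : ℕ) : ℝ) := by
        exact_mod_cast (by omega : 0 < 2 + S.sup (fun p : Nat.Primes => (p : ℕ)) +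
          (∏ j, (E.a j * E.b j)).natAbs + Wt + W₁)
      rw [div_lt_iff₀ hη] at h5
      rw [div_le_div_iff₀ h6 (by norm_num)]
      linarith
  have hW0 : (0 : ℝ) < W := by exact_mod_cast (by omega : 0 < W)
  have hPne := prod_ne E hE
  have hab : ∀ p : ℕ, p.Prime → (p : ℤ) ∣ ∏ j, (E.a j * E.b j) → p ≤ W := by
    intro p _ hd
    have h9 : p ∣ (∏ j, (E.a j * E.b j)).natAbs := Int.natCast_dvd.1 hd
    exact (Nat.le_of_dvd (Int.natAbs_pos.2 hPne) h9).trans hWab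
  -- the exponents
  have hp : ∀ p : ℕ, ∃ n : ℕ, N ≤ n ∧ ∃ H₀ : ℕ, p.Prime → ∀ H : ℕ, H₀ ≤ H →
      (((BXI e H).filter (fun c => padBad p n c)).card : ℝ) ≤
        η / (8 * (W + 1)) * ((2 * H + 1 : ℕ) : ℝ) ^ ncI e := by
    intro p
    by_cases hpp : p.Prime
    · obtain ⟨n, hn, H₀, h5⟩ := h2 (Fin m) e p hpp (η / (8 * (W + 1))) N (by positivity)
      exact ⟨n, hn, H₀, fun _ H hH => h5 H hH⟩
    · exact ⟨N, le_rfl, 0, fun h => absurd h hpp⟩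
  choose n hn HP hHP using hp
  obtain ⟨PW, hPW⟩ : ∃ PW : Finset ℕ, PW = (Icc 1 W).filter Nat.Prime := ⟨_, rfl⟩
  -- the window
  obtain ⟨W', hWW', HX, hHX⟩ := h6 r m E e hE i₀ W (η / 8) (by positivity)
  obtain ⟨HT, hHT⟩ := hWt W hWWt 1 le_rfl (fun p hp hp1 => absurd (Nat.dvd_one.1 hp1) hp.ne_one)
    (fun _ _ => 0)
  obtain ⟨M, hM⟩ : ∃ M : ℕ, M = (∏ p ∈ (Icc 1 W).filter Nat.Prime, p ^ (3 * n p + 11 + dl E p)) *
      ∏ l ∈ (Ioc W W').filter Nat.Prime, l ^ 4 := ⟨_, rfl⟩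
  have hmemPW : ∀ p : ℕ, p.Prime → p ≤ W → p ∈ (Icc 1 W).filter Nat.Prime := by
    intro p h5 h6
    rw [mem_filter, mem_Icc]
    exact ⟨⟨h5.one_lt.le, h6⟩, h5⟩
  have hM1 : 1 ≤ M := by
    rw [hM]
    refine Nat.one_le_iff_ne_zero.2 (mul_ne_zero (prod_ne_zero_iff.2 fun p h5 => ?_)
      (prod_ne_zero_iff.2 fun p h5 => ?_))
    · exact pow_ne_zero _ (mem_filter.1 h5).2.ne_zero
    · exact pow_ne_zero _ (mem_filter.1 h5).2.ne_zero
  have hMp : ∀ p : ℕ, p.Prime → p ≤ W → p ^ (3 * n p + 11 + dl E p) ∣ M := by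
    intro p h5 h6
    rw [hM]
    exact (dvd_prod_of_mem (fun p => p ^ (3 * n p + 11 + dl E p)) (hmemPW p h5 h6)).trans
      (dvd_mul_right _ _)
  have hMp1 : ∀ p : ℕ, p.Prime → p ≤ W' → p ∣ M := by
    intro p h5 h6
    rcases Nat.lt_or_ge W p with h9 | h9
    · rw [hM]
      have h10 : p ∈ (Ioc W W').filter Nat.Prime := mem_filter.2 ⟨mem_Ioc.2 ⟨h9, h6⟩, h5⟩
      exact (dvd_pow_self p (by norm_num)).trans
        ((dvd_prod_of_mem (fun l => l ^ 4) h10).trans (dvd_mul_left _ _))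
    · exact (dvd_pow_self p (by omega)).trans (hMp p h5 h9)
  have hMp2 : ∀ p : ℕ, p.Prime → p ∣ M → p ≤ W' := by
    intro p h5 h6
    rw [hM] at h6
    rcases (Nat.Prime.dvd_mul h5).1 h6 with h6 | h6
    · obtain ⟨q, hq, h7⟩ := (Nat.Prime.prime h5).exists_mem_finset_dvd h6
      have h8 := (mem_filter.1 hq)
      have h9 := (Nat.prime_dvd_prime_iff_eq h5 h8.2).1 (h5.dvd_of_dvd_pow h7)
      rw [h9]
      exact (mem_Icc.1 h8.1).2.trans hWW'.le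
    · obtain ⟨q, hq, h7⟩ := (Nat.Prime.prime h5).exists_mem_finset_dvd h6
      have h8 := (mem_filter.1 hq)
      have h9 := (Nat.prime_dvd_prime_iff_eq h5 h8.2).1 (h5.dvd_of_dvd_pow h7)
      rw [h9]
      exact (mem_Ioc.1 h8.1).2
  have h2M : 2 ∣ M := hMp1 2 Nat.prime_two (hW2.trans hWW'.le)
  have hBad : Bad E M := ⟨hM1, h2M, fun p h9 h10 => hMp1 p h9 ((hab p h9 h10).trans hWW'.le)⟩
  -- the chosen points
  obtain ⟨Gd, hGd⟩ : ∃ Gd : ((k : Fin m) → Fin (e k + 2) → ℤ) → ℤ × ℤ → (Fin m → ℤ) → ℤ × ℤ → Prop,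
    ∀ γ σ s a, Gd γ σ s a ↔ (LC E M γ s a.1 a.2 ∧ (Q : ℤ) ∣ a.1 - σ.1 ∧ (Q : ℤ) ∣ a.2 - σ.2) :=
    ⟨_, fun _ _ _ _ => Iff.rfl⟩
  have ha : ∀ γ σ s, ∃ a : ℤ × ℤ, (∃ a', Gd γ σ s a') → Gd γ σ s a := by
    intro γ σ s
    by_cases h5 : ∃ a', Gd γ σ s a'
    · obtain ⟨a', h6⟩ := h5
      exact ⟨a', fun _ => h6⟩
    · exact ⟨(0, 0), fun h => absurd h h5⟩
  choose a haG using ha
  have hB : ∀ x : (((k : Fin m) → Fin (e k + 2) → ℤ) × (ℤ × ℤ)) × ((ℝ × ℝ) ×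
      (Fin m → ℤ)), ∃ H₀ : ℕ, ((∃ a', Gd x.1.1 x.1.2 x.2.2 a') ∧ x.2.1.1 < x.2.1.2 ∧ SG E x.2.2) →
      ∀ H : ℕ, H₀ ≤ H → ((BB E M x.1.1 x.2.2 (a x.1.1 x.1.2 x.2.2).1 (a x.1.1 x.1.2 x.2.2).2
        x.2.1.1 x.2.1.2 H).card : ℝ) ≤ C / W' * (((2 * H + 1 : ℕ) : ℝ) / M) ^ ncI e := by
    intro x
    by_cases h5 : (∃ a', Gd x.1.1 x.1.2 x.2.2 a') ∧ x.2.1.1 < x.2.1.2 ∧ SG E x.2.2
    · have h6 := (hGd _ _ _ _).1 (haG x.1.1 x.1.2 x.2.2 h5.1)
      obtain ⟨H₀, h7⟩ := hC W' M (by omega) hBad hMp1 hMp2 (a x.1.1 x.1.2 x.2.2).1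
        (a x.1.1 x.1.2 x.2.2).2 x.2.1.1 x.2.1.2 h5.2.1 x.1.1 x.2.2 h5.2.2 h6.1
      exact ⟨H₀, fun _ H hH => h7 H hH⟩
    · exact ⟨0, fun h => absurd h h5⟩
  choose HB hHB using hB
  obtain ⟨Gam, hGam⟩ : ∃ Gam : Finset ((k : Fin m) → Fin (e k + 2) → ℤ),
    Gam = Fintype.piFinset (fun k : Fin m =>
      Fintype.piFinset (fun _ : Fin (e k + 2) => Ico (0 : ℤ) M)) := ⟨_, rfl⟩
  obtain ⟨idx, hidx⟩ : ∃ idx : Finset ((((k : Fin m) → Fin (e k + 2) → ℤ) × (ℤ × ℤ)) ×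
    ((ℝ × ℝ) × (Fin m → ℤ))), idx = (Gam ×ˢ Rs) ×ˢ (Z ×ˢ Sg) := ⟨_, rfl⟩
  obtain ⟨idx', hidx'⟩ : ∃ idx' : Finset ((((k : Fin m) → Fin (e k + 2) → ℤ) ×
    (ℤ × ℤ)) × ((ℝ × ℝ) × (Fin m → ℤ))), idx' = idx.filter (fun x =>
      (∃ a', Gd x.1.1 x.1.2 x.2.2 a') ∧ x.2.1.1 < x.2.1.2 ∧ SG E x.2.2) := ⟨_, rfl⟩
  refine ⟨HR + PW.sup HP + idx.sup HB + HX + HT, fun H hH => ?_⟩
  have hHR : HR ≤ H := by omega
  have hHX' : HX ≤ H := by omega
  have hHT' : HT ≤ H := by omega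
  have hHPH : ∀ p ∈ PW, HP p ≤ H := by
    intro p h5
    have := Finset.le_sup (f := HP) h5
    omega
  have hHBH : ∀ x ∈ idx, HB x ≤ H := by
    intro x h5
    have := Finset.le_sup (f := HB) h5
    omega
  obtain ⟨T, hT⟩ : ∃ T : ℝ, T = ((2 * H + 1 : ℕ) : ℝ) ^ ncI e := ⟨_, rfl⟩
  have hT0 : 0 ≤ T := by rw [hT]; positivity
  -- the exceptional sets
  obtain ⟨A1, hA1⟩ : ∃ A1 : Finset ((k : Fin m) → Fin (e k + 2) → ℤ),
    A1 = PW.biUnion (fun p => (BXI e H).filter (fun c => padBad p (n p) c)) := ⟨_, rfl⟩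
  obtain ⟨A2, hA2⟩ : ∃ A2 : Finset ((k : Fin m) → Fin (e k + 2) → ℤ),
    A2 = (BXI e H).filter (fun c => ∃ s : Fin m → ℤ, (∀ k, s k = 1 ∨ s k = -1) ∧
      (∃ z ∈ U, ∀ k, 0 < (s k : ℝ) * fmv (c k) 1 z) ∧
      ¬ ∃ w ∈ Z, ∀ k, ∀ z : ℝ, w.1 < z → z < w.2 → 0 < (s k : ℝ) * fmv (c k) 1 z) := ⟨_, rfl⟩
  obtain ⟨A3, hA3⟩ : ∃ A3 : Finset ((k : Fin m) → Fin (e k + 2) → ℤ),
    A3 = idx'.biUnion (fun x => BB E M x.1.1 x.2.2 (a x.1.1 x.1.2 x.2.2).1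
      (a x.1.1 x.1.2 x.2.2).2 x.2.1.1 x.2.1.2 H) := ⟨_, rfl⟩
  obtain ⟨A4, hA4⟩ : ∃ A4 : Finset ((k : Fin m) → Fin (e k + 2) → ℤ),
    A4 = (BXI e H).filter (fun c => ¬ Wind E c i₀ W W') := ⟨_, rfl⟩
  obtain ⟨A5, hA5⟩ : ∃ A5 : Finset ((k : Fin m) → Fin (e k + 2) → ℤ),
    A5 = (BXI e H).filter (fun c => (∀ i j, ((1 : ℕ) : ℤ) ∣ c i j - (fun _ _ => 0 :
      (i : Fin m) → Fin (e i + 2) → ℤ) i j) ∧
      ∃ l : ℕ, l.Prime ∧ W < l ∧ ¬ Triv c l) := ⟨_, rfl⟩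
  have hc1 : (A1.card : ℝ) ≤ η / 8 * T := by
    have h5 : (A1.card : ℝ) ≤ ∑ p ∈ PW,
        (((BXI e H).filter (fun c => padBad p (n p) c)).card : ℝ) := by
      rw [hA1]
      exact_mod_cast card_biUnion_le
    refine h5.trans ?_
    have h6 : ∀ p ∈ PW, (((BXI e H).filter (fun c => padBad p (n p) c)).card : ℝ) ≤
        η / (8 * (W + 1)) * T := by
      intro p h7
      rw [hT]
      refine hHP p ?_ H (hHPH p h7)
      rw [hPW] at h7
      exact (mem_filter.1 h7).2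
    refine (sum_le_sum h6).trans ?_
    rw [sum_const, nsmul_eq_mul]
    have h7 : (PW.card : ℝ) ≤ W := by
      have h8 : PW.card ≤ W := by
        rw [hPW]
        refine (card_filter_le _ _).trans ?_
        rw [Nat.card_Icc]
        omega
      exact_mod_cast h8
    have h8 : (PW.card : ℝ) * (η / (8 * (W + 1))) ≤ η / 8 := by
      rw [← mul_div_assoc, div_le_div_iff₀ (by positivity) (by norm_num)]
      nlinarith
    calc (PW.card : ℝ) * (η / (8 * (W + 1)) * T) = (PW.card : ℝ) * (η / (8 * (W + 1))) * T := by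
          ring
      _ ≤ η / 8 * T := mul_le_mul_of_nonneg_right h8 hT0
  have hc2 : (A2.card : ℝ) ≤ η / 8 * T := by
    rw [hA2, hT]
    have h5 := hR H hHR
    convert h5
  have hc4 : (A4.card : ℝ) ≤ η / 8 * T := by
    rw [hA4, hT]
    have h5 := hHX H hHX'
    convert h5
  have hc5 : (A5.card : ℝ) ≤ η / 8 * T := by
    rw [hA5, hT]
    have h5 := hHT H hHT'
    have k1 : ((2 * H + 1 : ℕ) : ℝ) / ((1 : ℕ) : ℝ) = ((2 * H + 1 : ℕ) : ℝ) := by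
      rw [Nat.cast_one, div_one]
    rw [k1] at h5
    convert h5
  have hc3 : (A3.card : ℝ) ≤ η / 8 * T := by
    have h5 : (A3.card : ℝ) ≤ ∑ x ∈ idx', ((BB E M x.1.1 x.2.2 (a x.1.1 x.1.2 x.2.2).1
        (a x.1.1 x.1.2 x.2.2).2 x.2.1.1 x.2.1.2 H).card : ℝ) := by
      rw [hA3]
      exact_mod_cast card_biUnion_le
    refine h5.trans ?_
    have hCW : C / W' ≤ C / W := by
      refine div_le_div_of_nonneg_left hC0 hW0 ?_
      exact_mod_cast hWW'.le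
    have h6 : ∀ x ∈ idx', ((BB E M x.1.1 x.2.2 (a x.1.1 x.1.2 x.2.2).1
        (a x.1.1 x.1.2 x.2.2).2 x.2.1.1 x.2.1.2 H).card : ℝ) ≤
        C / W * (((2 * H + 1 : ℕ) : ℝ) / M) ^ ncI e := by
      intro x h7
      rw [hidx'] at h7
      have h8 := mem_filter.1 h7
      exact (hHB x h8.2 H (hHBH x h8.1)).trans
        (mul_le_mul_of_nonneg_right hCW (by positivity))
    refine (sum_le_sum h6).trans ?_
    rw [sum_const, nsmul_eq_mul]
    have h7 : (idx'.card : ℝ) ≤ (M : ℝ) ^ ncI e * (Rs.card * Z.card * Sg.card) := by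
      have h8 : idx'.card ≤ M ^ ncI e * (Rs.card * Z.card * Sg.card) := by
        rw [hidx']
        refine (card_filter_le _ _).trans ?_
        rw [hidx, card_product, card_product, card_product, hGam, card_Gam]
        apply le_of_eq
        ring
      exact_mod_cast h8
    have hM0 : (0 : ℝ) < (M : ℝ) ^ ncI e := by
      have : (0 : ℝ) < M := by exact_mod_cast hM1
      positivity
    have h9 : 0 ≤ C / W * (((2 * H + 1 : ℕ) : ℝ) / M) ^ ncI e := by positivity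
    refine (mul_le_mul_of_nonneg_right h7 h9).trans ?_
    have h10 : (M : ℝ) ^ ncI e * (Rs.card * Z.card * Sg.card) *
        (C / W * (((2 * H + 1 : ℕ) : ℝ) / M) ^ ncI e) = Kc / W * T := by
      rw [div_pow, hKc, hT]
      field_simp
    rw [h10]
    exact mul_le_mul_of_nonneg_right hWK hT0
  -- the covering
  have hsub : (BXI e H).filter (fun c => LocG E U c ∧ ¬ ApprG E U S N c) ⊆
      A1 ∪ A2 ∪ A3 ∪ A4 ∪ A5 := by
    intro c hc
    obtain ⟨hcB, hcL, hcA⟩ := mem_filter.1 hc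
    by_cases k5 : ∃ p ∈ PW, padBad p (n p) c
    · obtain ⟨p, k6, k7⟩ := k5
      refine mem_union_left _ (mem_union_left _ (mem_union_left _ (mem_union_left _ ?_)))
      rw [hA1, mem_biUnion]
      exact ⟨p, k6, mem_filter.2 ⟨hcB, k7⟩⟩
    by_cases kX : Wind E c i₀ W W'
    swap
    · refine mem_union_left _ (mem_union_right _ ?_)
      rw [hA4, mem_filter]
      exact ⟨hcB, kX⟩
    by_cases kT : ∃ l : ℕ, l.Prime ∧ W < l ∧ ¬ Triv c l
    · refine mem_union_right _ ?_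
      rw [hA5, mem_filter]
      refine ⟨hcB, fun i j => ?_, kT⟩
      rw [Nat.cast_one]
      exact one_dvd _
    obtain ⟨z₀, hz₀U, hz₀⟩ := hcL.1
    obtain ⟨s, hs, hspos⟩ := signs E hE h8 c z₀ hz₀
    by_cases k6 : ∃ w ∈ Z, ∀ k, ∀ z : ℝ, w.1 < z → z < w.2 → 0 < (s k : ℝ) * fmv (c k) 1 z
    swap
    · refine mem_union_left _ (mem_union_left _ (mem_union_left _ (mem_union_right _ ?_)))
      rw [hA2, mem_filter]
      exact ⟨hcB, s, hs.1, ⟨z₀, hz₀U, hspos⟩, k6⟩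
    refine mem_union_left _ (mem_union_left _ (mem_union_right _ ?_))
    obtain ⟨w, hw, hpos⟩ := k6
    have hnb : ∀ p : ℕ, p.Prime → p ≤ W → ¬ padBad p (n p) c := by
      intro p k7 k8 k9
      refine k5 ⟨p, ?_, k9⟩
      rw [hPW]
      exact hmemPW p k7 k8
    unfold ApprG at hcA
    push Not at hcA
    obtain ⟨X, Y, hXY, hno⟩ := hcA
    obtain ⟨a₀, a₁, hclose, hloc⟩ := h4 r m E e hm hE i₀ hi₀ S N W W' n M hW2 hWW'.le hab hM hWS
      hn c hnb (fun l hl hlW _ => by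
        by_contra hcon
        exact kT ⟨l, hl, hlW, hcon⟩) kX (fun p _ => hcL.2 p) s hs X Y hXY
    -- the class
    obtain ⟨γ, hγ⟩ : ∃ γ : (k : Fin m) → Fin (e k + 2) → ℤ, ∀ k j, γ k j = c k j % M :=
      ⟨_, fun _ _ => rfl⟩
    have hM0' : (0 : ℤ) < M := by exact_mod_cast hM1
    have hγG : γ ∈ Gam := by
      rw [hGam, Fintype.mem_piFinset]
      intro k
      rw [Fintype.mem_piFinset]
      intro j
      rw [mem_Ico, hγ]
      exact ⟨Int.emod_nonneg _ hM0'.ne', Int.emod_lt_of_pos _ hM0'⟩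
    have hcγ : ∀ k j, (M : ℤ) ∣ c k j - γ k j := by
      intro k j
      rw [hγ]
      exact Int.dvd_self_sub_emod
    have hQ0' : (0 : ℤ) < Q := by exact_mod_cast hQ0
    obtain ⟨σ, hσ⟩ : ∃ σ : ℤ × ℤ, σ = (a₀ % Q, a₁ % Q) := ⟨_, rfl⟩
    have hσR : σ ∈ Rs := by
      rw [hRs, mem_product, mem_Ico, mem_Ico, hσ]
      exact ⟨⟨Int.emod_nonneg _ hQ0'.ne', Int.emod_lt_of_pos _ hQ0'⟩,
        ⟨Int.emod_nonneg _ hQ0'.ne', Int.emod_lt_of_pos _ hQ0'⟩⟩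
    have hlocγ : LC E M γ s a₀ a₁ := h5 r m E e hE M hBad c γ s a₀ a₁ a₀ a₁ hs.1 hcγ
      (by rw [sub_self]; exact dvd_zero _) (by rw [sub_self]; exact dvd_zero _) hloc
    have hex : ∃ a', Gd γ σ s a' := by
      refine ⟨(a₀, a₁), (hGd _ _ _ _).2 ⟨hlocγ, ?_, ?_⟩⟩
      · rw [hσ]
        exact Int.dvd_self_sub_emod
      · rw [hσ]
        exact Int.dvd_self_sub_emod
    have hchosen := (hGd _ _ _ _).1 (haG γ σ s hex)
    have hsSg : s ∈ Sg := by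
      rw [hSg, Fintype.mem_piFinset]
      intro k
      rw [mem_insert, mem_singleton]
      exact hs.1 k
    rw [hA3, mem_biUnion]
    refine ⟨((γ, σ), (w, s)), ?_, ?_⟩
    · rw [hidx', mem_filter, hidx]
      refine ⟨mem_product.2 ⟨mem_product.2 ⟨hγG, hσR⟩, mem_product.2 ⟨hw, hsSg⟩⟩, hex,
        (hZ w hw).1, hs⟩
    · unfold BB
      rw [mem_filter]
      refine ⟨hcB, hcγ, hpos, ?_⟩
      rintro ⟨x, y, hx0, hxM, hyM, hxy, hyx, hPS⟩
      have hx0' : (0 : ℝ) < x := by exact_mod_cast hx0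
      have hyU : (y : ℝ) / x ∈ U := by
        refine (hZ w hw).2 ⟨?_, ?_⟩
        · rw [le_div_iff₀ hx0']
          exact hxy.le
        · rw [div_le_iff₀ hx0']
          exact hyx.le
      -- closeness
      have hdvdQ : ∀ p ∈ S, (((p : ℕ) : ℤ) ^ N) ∣ (Q : ℤ) := by
        intro p hp
        have h7 : (p : ℕ) ^ N ∣ Q := by
          rw [hQ]
          exact dvd_prod_of_mem (fun p : Nat.Primes => (p : ℕ) ^ N) hp
        exact_mod_cast h7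
      have hdvdM : ∀ p ∈ S, (((p : ℕ) : ℤ) ^ N) ∣ (M : ℤ) := by
        intro p hp
        have h7 : (p : ℕ) ^ N ∣ M := by
          refine (pow_dvd_pow _ ?_).trans (hMp p p.2 (hWS p hp))
          have := hn p
          omega
        exact_mod_cast h7
      have key : ∀ (b b' z : ℤ) (τ : ℤ), (Q : ℤ) ∣ b - τ → (Q : ℤ) ∣ b' - τ →
          (M : ℤ) ∣ z - b' → ∀ p ∈ S, (((p : ℕ) : ℤ) ^ N) ∣ b - z := by
        intro b b' z τ h7 h8 h9 p hp
        have h10 : b - z = (b - τ) - (b' - τ) - (z - b') := by ring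
        rw [h10]
        exact dvd_sub (dvd_sub ((hdvdQ p hp).trans h7) ((hdvdQ p hp).trans h8))
          ((hdvdM p hp).trans h9)
      have hcl : ∀ p ∈ S, ‖X p - (x : ℚ_[(p : ℕ)])‖ ≤ (((p : ℕ) : ℝ) ^ N)⁻¹ ∧
          ‖Y p - (y : ℚ_[(p : ℕ)])‖ ≤ (((p : ℕ) : ℝ) ^ N)⁻¹ := by
        intro p hp
        refine ⟨Pool.Agent.N477.DC.padic_close p N (X p) a₀ x (hclose p hp).1 ?_,
          Pool.Agent.N477.DC.padic_close p N (Y p) a₁ y (hclose p hp).2 ?_⟩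
        · refine key a₀ (a γ σ s).1 x σ.1 ?_ hchosen.2.1 hxM p hp
          rw [hσ]
          exact Int.dvd_self_sub_emod
        · refine key a₁ (a γ σ s).2 y σ.2 ?_ hchosen.2.2 hyM p hp
          rw [hσ]
          exact Int.dvd_self_sub_emod
      obtain ⟨p, hp, k7⟩ := hno x y hx0 hyU hPS
      exact absurd (hcl p hp).2 (not_le.2 (k7 (hcl p hp).1))
  have hfin : (((BXI e H).filter (fun c => LocG E U c ∧ ¬ ApprG E U S N c)).card : ℝ) ≤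
      (A1.card : ℝ) + A2.card + A3.card + A4.card + A5.card := by
    have k5 := (card_le_card hsub).trans ((card_union_le _ _).trans
      (Nat.add_le_add_right ((card_union_le _ _).trans (Nat.add_le_add_right
      ((card_union_le _ _).trans (Nat.add_le_add_right (card_union_le _ _) _)) _)) _))
    exact_mod_cast k5
  rw [← hT]
  have k6 : η / 8 * T + η / 8 * T + η / 8 * T + η / 8 * T + η / 8 * T ≤ η * T := by
    nlinarith [mul_nonneg hη.le hT0]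
  have k7 := hfin.trans (add_le_add (add_le_add (add_le_add (add_le_add hc1 hc2) hc3) hc4) hc5)
  convert k7.trans k6

end

end Pool.Agent.N901.GC
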